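import Pool.Agent.NPC.Defs

/-!
# Pinwheel scheduling with durations: definitions
-/

namespace Pool.Agent.X245.DP

set_option autoImplicit false

/-- the frequency of job `i` -/
def fr (V : List (ℕ × ℕ)) (i : ℕ) : ℕ := (V.getD i (0, 0)).1

/-- the duration of job `i` -/
def du (V : List (ℕ × ℕ)) (i : ℕ) : ℕ := (V.getD i (0, 0)).2

/-- `V` is an instance: a non-empty list of pairs (frequency, duration) of positive integers,
ordered by the frequencies. -/
def Inst (V : List (ℕ × ℕ)) : Prop :=
  V ≠ [] ∧ (∀ x ∈ V, 0 < x.1 ∧ 0 < x.2) ∧ V.Pairwise fun x y => x.1 ≤ y.1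

/-- Frequency divisibility: every frequency divides the next one. -/
def Divis (V : List (ℕ × ℕ)) : Prop := ∀ i, i + 1 < V.length → fr V i ∣ fr V (i + 1)

/-- The density. -/
def density (V : List (ℕ × ℕ)) : ℚ := ∑ i ∈ Finset.range V.length, (du V i : ℚ) / fr V i

/-- The schedule `S` is feasible for `V`: every job is processed infinitely often, and the gap
between two consecutive completions of a job is at most its frequency. -/
def FeasibleSchedule (V : List (ℕ × ℕ)) (S : ℕ → ℕ) : Prop :=
  (∀ t, S t < V.length) ∧ ∀ i < V.length, (∀ N, ∃ t, N ≤ t ∧ S t = i) ∧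
    ∀ a b, a < b → S a = i → S b = i → (∀ t, a < t → t < b → S t ≠ i) →
      ∑ t ∈ Finset.Ioc a b, du V (S t) ≤ fr V i

/-- `V` is feasible. -/
def Feasible (V : List (ℕ × ℕ)) : Prop := ∃ S, FeasibleSchedule V S

/-- The criterion: the total duration `P` of the jobs of the smallest frequency `f₁` and the
duration of any other job satisfy `P + p ≤ f₁`. -/
def Crit (V : List (ℕ × ℕ)) : Prop :=
  ∀ j < V.length, fr V 0 < fr V j →
    (∑ i ∈ (Finset.range V.length).filter (fun i => fr V i = fr V 0), du V i) + du V j ≤ fr V 0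

end Pool.Agent.X245.DP
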