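import Mathlib

/-!
# Placing jobs with divisible periods
-/

namespace Pool.Agent.X245.DP

set_option autoImplicit false

open Finset

variable (q s : ℕ → ℕ)

/-- the load of frame `t` by the jobs in `[m, k)` -/
def load (m k : ℕ) (r : ℕ → ℕ) (t : ℕ) : ℕ := ∑ i ∈ Ico m k, if t % q i = r i then s i else 0

variable {q s}

theorem load_succ {m k : ℕ} (hk : m ≤ k) (r : ℕ → ℕ) (t : ℕ) :
    load q s m (k + 1) r t = load q s m k r t + if t % q k = r k then s k else 0 := by
  unfold load
  rw [sum_Ico_succ_top hk]

theorem load_congr {m k : ℕ} {r r' : ℕ → ℕ} (h : ∀ i, i < k → r i = r' i) (t : ℕ) :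
    load q s m k r t = load q s m k r' t := by
  unfold load
  refine sum_congr rfl fun i hi => ?_
  rw [h i (mem_Ico.1 hi).2]

theorem load_mod {m k Q : ℕ} {r : ℕ → ℕ} (h : ∀ i, m ≤ i → i < k → q i ∣ Q) {t u : ℕ}
    (htu : t % Q = u % Q) : load q s m k r t = load q s m k r u := by
  unfold load
  refine sum_congr rfl fun i hi => ?_
  have h1 := h i (mem_Ico.1 hi).1 (mem_Ico.1 hi).2
  have h2 : t % q i = u % q i := by
    rw [← Nat.mod_mod_of_dvd t h1, htu, Nat.mod_mod_of_dvd u h1]
  rw [h2]

theorem sum_mod (f : ℕ → ℚ) (b : ℕ) (a : ℕ) :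
    ∑ t ∈ range (a * b), f (t % b) = a * ∑ t ∈ range b, f t := by
  induction a with
  | zero => simp
  | succ a ih =>
    rw [Nat.succ_mul, sum_range_add, ih]
    have : ∑ x ∈ range b, f ((a * b + x) % b) = ∑ t ∈ range b, f t := by
      refine sum_congr rfl fun x hx => ?_
      rw [Nat.mul_add_mod_self_right, Nat.mod_eq_of_lt (mem_range.1 hx)]
    rw [this]
    push_cast
    ring

theorem sum_load {m k Q : ℕ} {r : ℕ → ℕ} (hQ : 0 < Q) (h : ∀ i, m ≤ i → i < k → q i ∣ Q)
    (hr : ∀ i, m ≤ i → i < k → r i < q i) :
    ∑ t ∈ range Q, (load q s m k r t : ℚ) = Q * ∑ i ∈ Ico m k, (s i : ℚ) / q i := by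
  unfold load
  push_cast
  rw [sum_comm, mul_sum]
  refine sum_congr rfl fun i hi => ?_
  obtain ⟨h1, h2⟩ := mem_Ico.1 hi
  obtain ⟨a, ha⟩ := h i h1 h2
  have hri := hr i h1 h2
  rw [mul_comm] at ha
  rw [ha]
  have h3 := sum_mod (fun t => if t = r i then (s i : ℚ) else 0) (q i) a
  rw [h3, sum_ite_eq' (range (q i)) (r i) (fun _ => (s i : ℚ)), if_pos (mem_range.2 hri)]
  have h4 : (q i : ℚ) ≠ 0 := by
    have : 0 < q i := by omega
    exact_mod_cast this.ne'
  push_cast
  field_simp

/-- **Placement.** -/
theorem placement (m n C : ℕ) (hdvd : ∀ i j, m ≤ i → i ≤ j → j < n → q i ∣ q j)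
    (hq : ∀ i, m ≤ i → i < n → 2 ≤ q i) (hs : ∀ i, m ≤ i → i < n → s i ≤ C)
    (hs0 : ∀ i, 0 < s i ∨ n ≤ i)
    (hd : 2 * ∑ i ∈ Ico m n, (s i : ℚ) / q i ≤ C) :
    ∀ k, m ≤ k → k ≤ n → ∃ r : ℕ → ℕ, (∀ i, m ≤ i → i < k → r i < q i) ∧
      (∀ t, load q s m k r t ≤ C) ∧
      ∃ ρ c, 2 ≤ ρ ∧ (∀ i, k ≤ i → i < n → ρ ∣ q i) ∧
        ∀ t t', load q s m k r t ≠ 0 → load q s m k r t' ≠ 0 →
          (t % ρ = c → t' % ρ ≠ c → C < load q s m k r t + load q s m k r t') ∧
          (t % ρ ≠ c → C < 2 * load q s m k r t) := by
  intro k hmk
  induction k, hmk using Nat.le_induction with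
  | base =>
    intro hmn
    have h0 : ∀ t, load q s m m (fun _ => 0) t = 0 := fun t => by simp [load]
    refine ⟨fun _ => 0, fun i h1 h2 => absurd h2 (by omega), fun t => by rw [h0]; omega, ?_⟩
    rcases Nat.lt_or_ge m n with h | h
    · exact ⟨q m, 0, hq m le_rfl h, fun i h1 h2 => hdvd m i le_rfl h1 h2,
        fun t t' h1 => absurd (h0 t) h1⟩
    · exact ⟨2, 0, le_rfl, fun i h1 h2 => absurd h2 (by omega), fun t t' h1 => absurd (h0 t) h1⟩
  | succ k hmk ih =>
    intro hkn
    obtain ⟨r, hr, hC, ρ, c, hρ, hρd, hI⟩ := ih (by omega)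
    have hqk : 2 ≤ q k := hq k hmk (by omega)
    have hsk : 0 < s k := (hs0 k).resolve_right (by omega)
    have hdq : ∀ i, m ≤ i → i < k → q i ∣ q k := fun i h1 h2 => hdvd i k h1 h2.le (by omega)
    -- the new load
    have hnew : ∀ x t, load q s m (k + 1) (Function.update r k x) t =
        load q s m k r t + if t % q k = x then s k else 0 := by
      intro x t
      rw [load_succ hmk, Function.update_self,
        load_congr (r := Function.update r k x) (r' := r) (fun i hi => by
          rw [Function.update_of_ne (by omega)])]
    have hrnew : ∀ x, x < q k → ∀ i, m ≤ i → i < k + 1 → Function.update r k x i < q i := by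
      intro x hx i h1 h2
      rcases Nat.lt_or_ge i k with h3 | h3
      · rw [Function.update_of_ne (by omega)]; exact hr i h1 h3
      · have : i = k := by omega
        subst this
        rw [Function.update_self]; exact hx
    by_cases hA : ∃ t, load q s m k r t ≠ 0 ∧ load q s m k r t + s k ≤ C
    · obtain ⟨t0, h0, h1⟩ := hA
      refine ⟨Function.update r k (t0 % q k), hrnew _ (Nat.mod_lt _ (by omega)), ?_, ρ, c, hρ,
        fun i h2 h3 => hρd i (by omega) h3, ?_⟩
      · intro t
        rw [hnew]
        split_ifs with h
        · rw [load_mod hdq h]; exact h1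
        · rw [add_zero]; exact hC t
      · have hne : ∀ t, load q s m (k + 1) (Function.update r k (t0 % q k)) t ≠ 0 →
            load q s m k r t ≠ 0 ∧
            load q s m k r t ≤ load q s m (k + 1) (Function.update r k (t0 % q k)) t := by
          intro t
          rw [hnew]
          split_ifs with h
          · intro _
            refine ⟨?_, by omega⟩
            rw [load_mod hdq h]; exact h0
          · intro h2
            exact ⟨by simpa using h2, by omega⟩
        intro t t' h2 h3
        obtain ⟨h4, h5⟩ := hne t h2
        obtain ⟨h6, h7⟩ := hne t' h3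
        obtain ⟨h8, h9⟩ := hI t t' h4 h6
        exact ⟨fun h10 h11 => by have := h8 h10 h11; omega, fun h10 => by have := h9 h10; omega⟩
    · push Not at hA
      -- an empty frame
      have hemp : ∃ t0, load q s m k r t0 = 0 := by
        by_contra hcon
        push Not at hcon
        have hpair : ∀ t, C < load q s m k r t + load q s m k r (t + 1) := by
          intro t
          have hne : (t + 1) % ρ ≠ t % ρ := by
            intro h
            have h1 : ρ ∣ (t + 1) - t := (Nat.modEq_iff_dvd' (by omega)).1 (h.symm)
            rw [show t + 1 - t = 1 by omega] at h1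
            have := Nat.le_of_dvd one_pos h1
            omega
          by_cases h1 : t % ρ = c
          · exact (hI t (t + 1) (hcon _) (hcon _)).1 h1 (by rw [← h1]; exact hne)
          · by_cases h2 : (t + 1) % ρ = c
            · have := (hI (t + 1) t (hcon _) (hcon _)).1 h2 h1
              omega
            · have h3 := (hI t (t + 1) (hcon _) (hcon _)).2 h1
              have h4 := (hI (t + 1) t (hcon _) (hcon _)).2 h2
              omega
        have hsum := sum_load (s := s) (Q := q k) (by omega) hdq hr
        have hshift : ∑ t ∈ range (q k), (load q s m k r (t + 1) : ℚ) =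
            ∑ t ∈ range (q k), (load q s m k r t : ℚ) := by
          have h1 := sum_range_succ (fun t => (load q s m k r t : ℚ)) (q k)
          have h2 := sum_range_succ' (fun t => (load q s m k r t : ℚ)) (q k)
          have h3 : load q s m k r (q k) = load q s m k r 0 :=
            load_mod hdq (by rw [Nat.mod_self, Nat.zero_mod])
          rw [h3] at h1
          linarith
        have h1 : (q k : ℚ) * (C + 1) ≤ ∑ t ∈ range (q k),
            ((load q s m k r t : ℚ) + load q s m k r (t + 1)) := by
          have h2 : ∑ _t ∈ range (q k), ((C : ℚ) + 1) ≤ ∑ t ∈ range (q k),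
              ((load q s m k r t : ℚ) + load q s m k r (t + 1)) := by
            refine sum_le_sum fun t _ => ?_
            have := hpair t
            exact_mod_cast this
          rw [sum_const, card_range, nsmul_eq_mul] at h2
          exact h2
        rw [sum_add_distrib, hshift, hsum] at h1
        have h2 : ∑ i ∈ Ico m k, (s i : ℚ) / q i ≤ ∑ i ∈ Ico m n, (s i : ℚ) / q i :=
          sum_le_sum_of_subset_of_nonneg (Ico_subset_Ico le_rfl (by omega))
            (fun i _ _ => by positivity)
        have h3 : (0 : ℚ) < q k := by
          have : 0 < q k := by omega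
          exact_mod_cast this
        have h4 : (q k : ℚ) * (C + 1) ≤ q k * C := by
          calc (q k : ℚ) * (C + 1) ≤ q k * ∑ i ∈ Ico m k, (s i : ℚ) / q i +
                q k * ∑ i ∈ Ico m k, (s i : ℚ) / q i := h1
            _ = q k * (2 * ∑ i ∈ Ico m k, (s i : ℚ) / q i) := by ring
            _ ≤ q k * C := by
              refine mul_le_mul_of_nonneg_left ?_ h3.le
              linarith
        have h5 := le_of_mul_le_mul_left h4 h3
        linarith
      obtain ⟨t0, ht0⟩ := hemp
      have hload : ∀ t, load q s m (k + 1) (Function.update r k (t0 % q k)) t =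
          if t % q k = t0 % q k then s k else load q s m k r t := by
        intro t
        rw [hnew]
        split_ifs with h
        · rw [load_mod hdq h, ht0, zero_add]
        · rw [add_zero]
      have hbound : ∀ t, load q s m (k + 1) (Function.update r k (t0 % q k)) t ≤ C := by
        intro t
        rw [hload]
        split_ifs with h
        · exact hs k hmk (by omega)
        · exact hC t
      by_cases hB : 2 * s k ≤ C
      · refine ⟨Function.update r k (t0 % q k), hrnew _ (Nat.mod_lt _ (by omega)), hbound,
          q k, t0 % q k, hqk, fun i h2 h3 => hdvd k i hmk (by omega) h3, ?_⟩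
        intro t t' h1 h2
        rw [hload] at h1 h2 ⊢
        rw [hload]
        constructor
        · intro h3 h4
          rw [if_neg h4] at h2
          rw [if_pos h3, if_neg h4]
          have := hA t' h2
          omega
        · intro h3
          rw [if_neg h3] at h1 ⊢
          have := hA t h1
          omega
      · refine ⟨Function.update r k (t0 % q k), hrnew _ (Nat.mod_lt _ (by omega)), hbound,
          ρ, c, hρ, fun i h2 h3 => hρd i (by omega) h3, ?_⟩
        have hρk : ρ ∣ q k := hρd k le_rfl (by omega)
        intro t t' h1 h2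
        rw [hload] at h1 h2 ⊢
        rw [hload]
        constructor
        · intro h3 h4
          by_cases h5 : t % q k = t0 % q k
          · have h6 : t' % q k ≠ t0 % q k := by
              intro h7
              apply h4
              rw [← Nat.mod_mod_of_dvd t' hρk, h7, ← h5, Nat.mod_mod_of_dvd t hρk, h3]
            rw [if_neg h6] at h2
            rw [if_pos h5, if_neg h6]
            have := hA t' h2
            omega
          · rw [if_neg h5] at h1
            rw [if_neg h5]
            by_cases h6 : t' % q k = t0 % q k
            · rw [if_pos h6]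
              exact hA t h1
            · rw [if_neg h6] at h2
              rw [if_neg h6]
              exact (hI t t' h1 h2).1 h3 h4
        · intro h3
          by_cases h5 : t % q k = t0 % q k
          · rw [if_pos h5]; omega
          · rw [if_neg h5] at h1 ⊢
            exact (hI t t h1 h1).2 h3

end Pool.Agent.X245.DP
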