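import Mathlib

/-!
# The schedule of a frame assignment
-/

namespace Pool.Agent.X245.DP

set_option autoImplicit false

open Finset

variable (n : ℕ) (q r : ℕ → ℕ)

/-- the frame `t` -/
def frame (t : ℕ) : List ℕ := (List.range n).filter fun i => decide (t % q i = r i)

/-- the first `K` frames -/
def WW (K : ℕ) : List ℕ := (List.range K).flatMap (frame n q r)

/-- the schedule -/
def SS (t : ℕ) : ℕ := (WW n q r (t + 1)).getD t 0

/-- the jobs before `j` in frame `k` -/
def before (k j : ℕ) : List ℕ := (List.range j).filter fun i => decide (k % q i = r i)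

/-- the position of job `j` of frame `k` -/
def pos (k j : ℕ) : ℕ := (WW n q r k).length + (before q r k j).length

variable {n q r}

theorem WW_succ (K : ℕ) : WW n q r (K + 1) = WW n q r K ++ frame n q r K := by
  unfold WW
  rw [List.range_succ, List.flatMap_append, List.flatMap_singleton]

theorem WW_prefix {K K' : ℕ} (h : K ≤ K') : WW n q r K <+: WW n q r K' := by
  induction K', h using Nat.le_induction with
  | base => exact List.prefix_rfl
  | succ K' _ ih => rw [WW_succ]; exact ih.trans (List.prefix_append _ _)

theorem frame_split {k j : ℕ} (hj : j < n) (hk : k % q j = r j) :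
    ∃ B, frame n q r k = before q r k j ++ j :: B := by
  obtain ⟨d, rfl⟩ := Nat.exists_eq_add_of_lt hj
  unfold frame before
  rw [show j + d + 1 = j + (d + 1) by omega, List.range_add, List.filter_append]
  refine ⟨((List.range d).map fun x => j + (x + 1)).filter fun i => decide (k % q i = r i), ?_⟩
  congr 1
  rw [List.range_succ_eq_map, List.map_cons, add_zero, List.filter_cons_of_pos (by simpa using hk),
    List.map_map]
  rfl

theorem frame_nodup (k : ℕ) : (frame n q r k).Nodup := List.nodup_range.filter _

section

variable (hn : 0 < n) (h0 : ∀ k, k % q 0 = r 0)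

include hn h0

theorem frame_ne (k : ℕ) : 1 ≤ (frame n q r k).length := by
  obtain ⟨B, hB⟩ := frame_split hn (h0 k)
  rw [hB, List.length_append, List.length_cons]
  omega

theorem le_length_WW (K : ℕ) : K ≤ (WW n q r K).length := by
  induction K with
  | zero => omega
  | succ K ih =>
    rw [WW_succ, List.length_append]
    have := frame_ne hn h0 K
    omega

theorem SS_eq {t K : ℕ} (h : t < (WW n q r K).length) : SS n q r t = (WW n q r K)[t] := by
  have h1 : t < (WW n q r (t + 1)).length := by
    have := le_length_WW hn h0 (t + 1)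
    omega
  unfold SS
  rw [List.getD_eq_getElem _ _ h1]
  rcases le_total (t + 1) K with h2 | h2
  · exact (WW_prefix h2).getElem h1
  · exact ((WW_prefix h2).getElem h).symm

theorem SS_lt (t : ℕ) : SS n q r t < n := by
  have h1 : t < (WW n q r (t + 1)).length := by
    have := le_length_WW hn h0 (t + 1)
    omega
  rw [SS_eq hn h0 h1]
  have h2 := List.getElem_mem h1
  unfold WW at h2
  obtain ⟨k, _, hk⟩ := List.mem_flatMap.1 h2
  exact List.mem_range.1 (List.mem_filter.1 hk).1

theorem pos_lt {k j : ℕ} (hj : j < n) (hk : k % q j = r j) :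
    pos n q r k j < (WW n q r (k + 1)).length := by
  obtain ⟨B, hB⟩ := frame_split hj hk
  rw [WW_succ, List.length_append, hB, List.length_append, List.length_cons]
  unfold pos
  omega

theorem SS_pos {k j : ℕ} (hj : j < n) (hk : k % q j = r j) : SS n q r (pos n q r k j) = j := by
  rw [SS_eq hn h0 (pos_lt hn h0 hj hk)]
  obtain ⟨B, hB⟩ := frame_split hj hk
  have h1 : WW n q r (k + 1) = (WW n q r k ++ before q r k j) ++ j :: B := by
    rw [WW_succ, hB, List.append_assoc]
  have h2 : (WW n q r (k + 1))[pos n q r k j]? = some j := by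
    rw [h1, List.getElem?_append_right (by rw [List.length_append]; exact le_rfl),
      List.length_append]
    unfold pos
    simp
  rw [List.getElem?_eq_getElem (pos_lt hn h0 hj hk)] at h2
  simpa using h2

theorem occ {a j : ℕ} (hj : j < n) (ha : SS n q r a = j) :
    ∃ k, k % q j = r j ∧ a = pos n q r k j := by
  have h1 : ∃ K, a < (WW n q r K).length := ⟨a + 1, by
    have := le_length_WW hn h0 (a + 1)
    omega⟩
  classical
  set K := Nat.find h1 with hK
  have h2 : a < (WW n q r K).length := Nat.find_spec h1
  have hK0 : K ≠ 0 := by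
    intro h
    rw [h] at h2
    simp [WW] at h2
  obtain ⟨k, hk⟩ := Nat.exists_eq_succ_of_ne_zero hK0
  have h3 : (WW n q r k).length ≤ a := by
    have := Nat.find_min h1 (m := k) (by omega)
    omega
  rw [hk] at h2
  have h4 := SS_eq hn h0 h2
  rw [ha] at h4
  have h5 : (WW n q r (k + 1))[a]? = some j := by
    rw [List.getElem?_eq_getElem h2, ← h4]
  rw [WW_succ, List.getElem?_append_right h3] at h5
  have h6 : j ∈ frame n q r k := List.mem_of_getElem? h5
  have h7 : k % q j = r j := by
    have := (List.mem_filter.1 h6).2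
    simpa using this
  refine ⟨k, h7, ?_⟩
  obtain ⟨B, hB⟩ := frame_split hj h7
  have h8 : (frame n q r k)[(before q r k j).length]? = some j := by
    rw [hB]; simp
  have h9 := (frame_nodup (n := n) (q := q) (r := r) k)
  have h10 : (before q r k j).length = a - (WW n q r k).length := by
    obtain ⟨h11, h12⟩ := List.getElem?_eq_some_iff.1 h8
    obtain ⟨h13, h14⟩ := List.getElem?_eq_some_iff.1 h5
    exact (List.Nodup.getElem_inj_iff h9).1 (h12.trans h14.symm)
  unfold pos
  omega

theorem sum_SS (s : ℕ → ℕ) {K T : ℕ} (h : T ≤ (WW n q r K).length) :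
    ∑ t ∈ range T, s (SS n q r t) = (((WW n q r K).take T).map s).sum := by
  induction T with
  | zero => simp
  | succ T ih =>
    have h1 : T < (WW n q r K).length := by omega
    rw [sum_range_succ, ih h1.le, SS_eq hn h0 h1, List.take_succ_eq_append_getElem h1,
      List.map_append, List.sum_append]
    simp

theorem sum_pos (s : ℕ → ℕ) {k j : ℕ} (hj : j < n) (hk : k % q j = r j) :
    ∑ t ∈ range (pos n q r k j + 1), s (SS n q r t) =
      ((WW n q r k).map s).sum + ((before q r k j).map s).sum + s j := by
  have h1 := pos_lt hn h0 hj hk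
  rw [sum_SS hn h0 s (K := k + 1) (by omega)]
  obtain ⟨B, hB⟩ := frame_split hj hk
  have h2 : WW n q r (k + 1) = (WW n q r k ++ before q r k j ++ [j]) ++ B := by
    rw [WW_succ, hB]; simp
  have h3 : pos n q r k j + 1 = (WW n q r k ++ before q r k j ++ [j]).length := by
    unfold pos
    simp only [List.length_append, List.length_cons, List.length_nil]
  rw [h2, h3, List.take_left]
  simp [add_assoc]

end

theorem before_eq {k k' j : ℕ} (h : ∀ i < j, k % q i = k' % q i) :
    before q r k j = before q r k' j := by
  unfold before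
  refine List.filter_congr fun i hi => ?_
  rw [h i (List.mem_range.1 hi)]

theorem weight_frame (s : ℕ → ℕ) (k : ℕ) : ((frame n q r k).map s).sum =
    ∑ i ∈ range n, if k % q i = r i then s i else 0 := by
  unfold frame
  induction n with
  | zero => simp
  | succ n ih =>
    rw [List.range_succ, List.filter_append, List.map_append, List.sum_append, ih,
      sum_range_succ]
    congr 1
    by_cases h : k % q n = r n
    · rw [List.filter_cons_of_pos (by simpa using h), if_pos h]; simp
    · rw [List.filter_cons_of_neg (by simpa using h), if_neg h]; simp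

theorem weight_WW (s : ℕ → ℕ) {F : ℕ}
    (hF : ∀ t, (∑ i ∈ range n, if t % q i = r i then s i else 0) ≤ F) (k d : ℕ) :
    ((WW n q r (k + d)).map s).sum ≤ ((WW n q r k).map s).sum + d * F := by
  induction d with
  | zero => simp
  | succ d ih =>
    rw [← add_assoc, WW_succ, List.map_append, List.sum_append, weight_frame, add_mul]
    have := hF (k + d)
    omega

/-- **The schedule is feasible.** -/
theorem sched_ok (s : ℕ → ℕ) {F : ℕ} (hn : 0 < n) (hr : ∀ i < n, r i < q i) (hq0 : q 0 = 1)
    (hdvd : ∀ i j, i ≤ j → j < n → q i ∣ q j)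
    (hF : ∀ t, (∑ i ∈ range n, if t % q i = r i then s i else 0) ≤ F) :
    (∀ t, SS n q r t < n) ∧ ∀ j < n, (∀ N, ∃ t, N ≤ t ∧ SS n q r t = j) ∧
      ∀ a b, a < b → SS n q r a = j → SS n q r b = j → (∀ t, a < t → t < b → SS n q r t ≠ j) →
        ∑ t ∈ Ioc a b, s (SS n q r t) ≤ q j * F := by
  have h0 : ∀ k, k % q 0 = r 0 := by
    intro k
    have := hr 0 hn
    rw [hq0] at this ⊢
    rw [Nat.mod_one]
    omega
  refine ⟨SS_lt hn h0, fun j hj => ⟨fun N => ?_, ?_⟩⟩
  · have hrj := hr j hj
    have h1 : (N * q j + r j) % q j = r j := by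
      rw [Nat.mul_add_mod_self_right, Nat.mod_eq_of_lt hrj]
    refine ⟨pos n q r (N * q j + r j) j, ?_, SS_pos hn h0 hj h1⟩
    have h2 := le_length_WW hn h0 (N * q j + r j)
    have h3 : N ≤ N * q j := Nat.le_mul_of_pos_right _ (by omega)
    unfold pos
    omega
  · intro a b hab ha hb hbet
    obtain ⟨k, hk, rfl⟩ := occ hn h0 hj ha
    have hrj := hr j hj
    have hk' : (k + q j) % q j = r j := by rw [Nat.add_mod_right]; exact hk
    set b' := pos n q r (k + q j) j with hb'
    have hab' : pos n q r k j < b' := by
      have h1 := pos_lt hn h0 hj hk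
      have h2 : (WW n q r (k + 1)).length ≤ (WW n q r (k + q j)).length :=
        (WW_prefix (by omega)).length_le
      have h3 : (WW n q r (k + q j)).length ≤ b' := by rw [hb']; unfold pos; omega
      omega
    have hbb' : b ≤ b' := by
      by_contra h
      exact hbet b' hab' (by omega) (SS_pos hn h0 hj hk')
    have h1 := sum_pos hn h0 s hj hk
    have h2 := sum_pos hn h0 s hj hk'
    have h3 : before q r (k + q j) j = before q r k j := by
      refine before_eq fun i hi => ?_
      obtain ⟨c, hc⟩ := hdvd i j hi.le hj
      rw [hc, Nat.add_mul_mod_self_left]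
    rw [h3, ← hb'] at h2
    have h4 := weight_WW s hF k (q j)
    have h5 : ∑ t ∈ Ioc (pos n q r k j) b, s (SS n q r t) ≤
        ∑ t ∈ Ioc (pos n q r k j) b', s (SS n q r t) :=
      sum_le_sum_of_subset (Ioc_subset_Ioc le_rfl hbb')
    have h6 : ∑ t ∈ range (b' + 1), s (SS n q r t) =
        ∑ t ∈ range (pos n q r k j + 1), s (SS n q r t) +
        ∑ t ∈ Ioc (pos n q r k j) b', s (SS n q r t) := by
      have h7 : Ioc (pos n q r k j) b' = Ico (pos n q r k j + 1) (b' + 1) := by
        ext t; simp only [mem_Ioc, mem_Ico]; omega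
      rw [h7, sum_range_add_sum_Ico _ (by omega)]
    omega

end Pool.Agent.X245.DP
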