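import Pool.Agent.X245.DP.Nec
import Pool.Agent.X245.DP.Greedy
import Pool.Agent.X245.DP.Sched

/-!
# The criterion for density at most 1/2
-/

namespace Pool.Agent.X245.DP

set_option autoImplicit false

open Finset

variable {V : List (ℕ × ℕ)}

theorem fr_pos (hV : Inst V) {i : ℕ} (hi : i < V.length) : 0 < fr V i ∧ 0 < du V i := by
  unfold fr du
  rw [List.getD_eq_getElem _ _ hi]
  exact hV.2.1 _ (List.getElem_mem hi)

theorem fr_dvd (hD : Divis V) {i j : ℕ} (hij : i ≤ j) (hj : j < V.length) : fr V i ∣ fr V j := by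
  induction j, hij using Nat.le_induction with
  | base => exact dvd_rfl
  | succ j _ ih => exact (ih (by omega)).trans (hD j hj)

theorem feasible_of_crit (hV : Inst V) (hD : Divis V) (hρ : density V ≤ 1 / 2) (hc : Crit V) :
    Feasible V := by
  classical
  set n := V.length with hn
  have hn0 : 0 < n := List.length_pos_iff.2 hV.1
  set f0 := fr V 0 with hf0
  have hf0p : 0 < f0 := (fr_pos hV hn0).1
  have hd0 : ∀ i < n, f0 ∣ fr V i := fun i hi => fr_dvd hD (Nat.zero_le _) hi
  set q : ℕ → ℕ := fun i => fr V i / f0 with hq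
  have hqf : ∀ i < n, q i * f0 = fr V i := fun i hi => Nat.div_mul_cancel (hd0 i hi)
  have hdvd : ∀ i j, i ≤ j → j < n → q i ∣ q j := by
    intro i j hij hj
    exact Nat.div_dvd_div (hd0 i (by omega)) (fr_dvd hD hij hj)
  -- the number of jobs of the smallest frequency
  have hex : ∃ i, n ≤ i ∨ fr V i ≠ f0 := ⟨n, Or.inl le_rfl⟩
  set m := Nat.find hex with hm
  have hmn : m ≤ n := Nat.find_min' hex (Or.inl le_rfl)
  have hlt : ∀ i < m, i < n ∧ fr V i = f0 := by
    intro i hi
    have := Nat.find_min hex hi
    push Not at this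
    exact this
  have hge : ∀ i, m ≤ i → i < n → f0 < fr V i := by
    intro i h1 h2
    have h3 : fr V m ≠ f0 := by
      rcases Nat.find_spec hex with h | h
      · exact absurd (show n ≤ m from h) (by omega)
      · exact h
    have h4 : fr V m ≤ fr V i := Nat.le_of_dvd (fr_pos hV h2).1 (fr_dvd hD h1 h2)
    have h5 : f0 ≤ fr V m := Nat.le_of_dvd (fr_pos hV (by omega)).1 (hd0 m (by omega))
    omega
  have hq1 : ∀ i < m, q i = 1 := by
    intro i hi
    change fr V i / f0 = 1
    rw [(hlt i hi).2, Nat.div_self hf0p]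
  have hq2 : ∀ i, m ≤ i → i < n → 2 ≤ q i := by
    intro i h1 h2
    have h3 := hge i h1 h2
    have h4 := hqf i h2
    by_contra h5
    have h6 : q i ≤ 1 := by omega
    have h7 : q i * f0 ≤ 1 * f0 := Nat.mul_le_mul_right _ h6
    omega
  set P := ∑ i ∈ range m, du V i with hP
  have hfil : ((range n).filter fun i => fr V i = f0) = range m := by
    ext i
    rw [mem_filter, mem_range, mem_range]
    constructor
    · rintro ⟨h1, h2⟩
      by_contra h3
      have := hge i (by omega) h1
      omega
    · intro h1
      exact hlt i h1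
  have hcrit : ∀ i, m ≤ i → i < n → P + du V i ≤ f0 := by
    intro i h1 h2
    have := hc i h2 (hge i h1 h2)
    rw [← hf0, ← hn, hfil] at this
    exact this
  -- density
  have hdens : (P : ℚ) + ∑ i ∈ Ico m n, (du V i : ℚ) / q i ≤ f0 / 2 := by
    have h1 : (P : ℚ) + ∑ i ∈ Ico m n, (du V i : ℚ) / q i = f0 * density V := by
      have h2 : ∀ i < n, (du V i : ℚ) / q i = f0 * (du V i / fr V i) := by
        intro i hi
        have h3 : ((q i : ℕ) : ℚ) * f0 = fr V i := by exact_mod_cast hqf i hi
        have h4 : (f0 : ℚ) ≠ 0 := by exact_mod_cast hf0p.ne'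
        have h5 : ((fr V i : ℕ) : ℚ) ≠ 0 := by exact_mod_cast (fr_pos hV hi).1.ne'
        have h6 : ((q i : ℕ) : ℚ) ≠ 0 := by
          intro h7
          rw [h7, zero_mul] at h3
          exact h5 h3.symm
        rw [← h3]
        field_simp
      have h7 : (P : ℚ) = ∑ i ∈ range m, (du V i : ℚ) / q i := by
        rw [hP]
        push_cast
        refine sum_congr rfl fun i hi => ?_
        rw [hq1 i (mem_range.1 hi)]
        simp
      rw [h7, sum_range_add_sum_Ico _ hmn, density, mul_sum, ← hn]
      exact sum_congr rfl fun i hi => h2 i (mem_range.1 hi)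
    rw [h1]
    have h2 : (0 : ℚ) < f0 := by exact_mod_cast hf0p
    calc (f0 : ℚ) * density V ≤ f0 * (1 / 2) := mul_le_mul_of_nonneg_left hρ h2.le
      _ = f0 / 2 := by ring
  have hnn : (0 : ℚ) ≤ ∑ i ∈ Ico m n, (du V i : ℚ) / q i := sum_nonneg fun i _ => by positivity
  have hPf : P ≤ f0 := by
    have h1 : (P : ℚ) ≤ f0 / 2 := by linarith
    have h2 : (P : ℚ) ≤ f0 := by
      have : (0 : ℚ) < f0 := by exact_mod_cast hf0p
      linarith
    exact_mod_cast h2
  obtain ⟨r, hr, hload, -⟩ := placement (q := q) (s := du V) m n (f0 - P)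
    (fun i j _ hij hj => hdvd i j hij hj) hq2
    (fun i h1 h2 => by have := hcrit i h1 h2; omega)
    (fun i => by
      rcases Nat.lt_or_ge i n with h | h
      · exact Or.inl (fr_pos hV h).2
      · exact Or.inr h)
    (by
      rw [Nat.cast_sub hPf]
      have : (0 : ℚ) ≤ P := by positivity
      linarith) n hmn le_rfl
  set r' : ℕ → ℕ := fun i => if i < m then 0 else r i with hr'
  have hm0 : 0 < m := by
    by_contra h
    have h1 : m = 0 := by omega
    have := hge 0 (by omega) hn0
    omega
  have hsched := sched_ok (n := n) (q := q) (r := r') (du V) (F := f0) hn0 (by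
      intro i hi
      change (if i < m then 0 else r i) < q i
      split_ifs with h
      · rw [hq1 i h]; omega
      · exact hr i (by omega) hi) (hq1 0 hm0) hdvd (by
      intro t
      rw [← sum_range_add_sum_Ico _ hmn]
      have h1 : (∑ i ∈ range m, if t % q i = r' i then du V i else 0) = P := by
        refine sum_congr rfl fun i hi => ?_
        have hi := mem_range.1 hi
        rw [if_pos]
        change t % q i = if i < m then 0 else r i
        rw [if_pos hi, hq1 i hi, Nat.mod_one]
      have h2 : (∑ i ∈ Ico m n, if t % q i = r' i then du V i else 0) = load q (du V) m n r t := by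
        refine sum_congr rfl fun i hi => ?_
        have hi := mem_Ico.1 hi
        have : r' i = r i := by
          change (if i < m then 0 else r i) = r i
          rw [if_neg (by omega)]
        rw [this]
      rw [h1, h2]
      have := hload t
      omega)
  refine ⟨SS n q r', hsched.1, fun i hi => ⟨(hsched.2 i hi).1, fun a b h1 h2 h3 h4 => ?_⟩⟩
  have := (hsched.2 i hi).2 a b h1 h2 h3 h4
  rwa [hqf i hi] at this

/-- **The criterion.** -/
theorem feasible_iff (hV : Inst V) (hD : Divis V) (hρ : density V ≤ 1 / 2) :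
    Feasible V ↔ Crit V :=
  ⟨crit_of_feasible hV, feasible_of_crit hV hD hρ⟩

end Pool.Agent.X245.DP
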