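import Pool.Agent.X245.DP.Defs

/-!
# Necessity of the criterion
-/

namespace Pool.Agent.X245.DP

set_option autoImplicit false

open Finset

/-- last occurrence before `s` -/
theorem last_occ {S : ℕ → ℕ} {i s : ℕ} (h : ∃ t, t < s ∧ S t = i) :
    ∃ a, a < s ∧ S a = i ∧ ∀ t, a < t → t < s → S t ≠ i := by
  classical
  obtain ⟨t0, ht0, hi0⟩ := h
  have hne : ((range s).filter fun t => S t = i).Nonempty :=
    ⟨t0, mem_filter.2 ⟨mem_range.2 ht0, hi0⟩⟩
  refine ⟨((range s).filter fun t => S t = i).max' hne, ?_, ?_, ?_⟩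
  · exact mem_range.1 (mem_filter.1 (max'_mem _ hne)).1
  · exact (mem_filter.1 (max'_mem _ hne)).2
  · intro t h1 h2 h3
    have := le_max' ((range s).filter fun t => S t = i) t (mem_filter.2 ⟨mem_range.2 h2, h3⟩)
    omega

/-- next occurrence after `s` -/
theorem next_occ {S : ℕ → ℕ} {i s : ℕ} (h : ∀ N, ∃ t, N ≤ t ∧ S t = i) :
    ∃ b, s < b ∧ S b = i ∧ ∀ t, s < t → t < b → S t ≠ i := by
  classical
  have h1 : ∃ t, s < t ∧ S t = i := by
    obtain ⟨t, h2, h3⟩ := h (s + 1)
    exact ⟨t, by omega, h3⟩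
  refine ⟨Nat.find h1, (Nat.find_spec h1).1, (Nat.find_spec h1).2, fun t h2 h3 h4 => ?_⟩
  exact Nat.find_min h1 h3 ⟨h2, h4⟩

theorem crit_of_feasible {V : List (ℕ × ℕ)} (hV : Inst V) (h : Feasible V) : Crit V := by
  classical
  obtain ⟨S, hS, hF⟩ := h
  intro j hj hlt
  set n := V.length with hn
  have hn0 : 0 < n := List.length_pos_iff.2 hV.1
  set G := (range n).filter fun i => fr V i = fr V 0 with hG
  have hGn : ∀ i ∈ G, i < n ∧ fr V i = fr V 0 := by
    intro i hi
    rw [hG, mem_filter, mem_range] at hi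
    exact hi
  have hG0 : (0 : ℕ) ∈ G := by rw [hG, mem_filter, mem_range]; exact ⟨hn0, rfl⟩
  -- a late occurrence of `j`
  have h1 : ∃ N, ∀ i ∈ G, ∃ t, t < N ∧ S t = i := by
    have h2 : ∀ i ∈ G, ∃ t, S t = i := by
      intro i hi
      obtain ⟨t, _, ht⟩ := (hF i (hGn i hi).1).1 0
      exact ⟨t, ht⟩
    choose! T hT using h2
    refine ⟨G.sup T + 1, fun i hi => ⟨T i, ?_, hT i hi⟩⟩
    have := le_sup (f := T) hi
    omega
  obtain ⟨N, hN⟩ := h1
  obtain ⟨s, hs, hsj⟩ := (hF j hj).1 N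
  have hlast : ∀ i ∈ G, ∃ a, a < s ∧ S a = i ∧ ∀ t, a < t → t < s → S t ≠ i := by
    intro i hi
    obtain ⟨t, ht, hti⟩ := hN i hi
    exact last_occ ⟨t, by omega, hti⟩
  choose! A hA1 hA2 hA3 using hlast
  obtain ⟨i0, hi0, hmin⟩ := exists_min_image G A ⟨0, hG0⟩
  obtain ⟨b, hb1, hb2, hb3⟩ := next_occ (s := s) (hF i0 (hGn i0 hi0).1).1
  have hji : S s ≠ i0 := by
    rw [hsj]
    rintro rfl
    have := (hGn j hi0).2
    omega
  have hgap := (hF i0 (hGn i0 hi0).1).2 (A i0) b (by have := hA1 i0 hi0; omega) (hA2 i0 hi0) hb2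
    (by
      intro t h2 h3
      rcases lt_trichotomy t s with h4 | h4 | h4
      · exact hA3 i0 hi0 t h2 h4
      · subst h4; exact hji
      · exact hb3 t h4 h3)
  rw [(hGn i0 hi0).2] at hgap
  -- the occurrences in the gap
  have hAinj : Set.InjOn A (G.erase i0 : Finset ℕ) := by
    intro x hx y hy hxy
    have h2 := hA2 x (mem_of_mem_erase hx)
    have h3 := hA2 y (mem_of_mem_erase hy)
    rw [← h2, ← h3, hxy]
  have hsub : insert b (insert s ((G.erase i0).image A)) ⊆ Ioc (A i0) b := by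
    intro t ht
    rw [mem_Ioc]
    rcases mem_insert.1 ht with rfl | ht
    · have := hA1 i0 hi0; exact ⟨by omega, le_rfl⟩
    · rcases mem_insert.1 ht with rfl | ht
      · have := hA1 i0 hi0; exact ⟨by omega, by omega⟩
      · obtain ⟨i, hi, rfl⟩ := mem_image.1 ht
        have h2 := hmin i (mem_of_mem_erase hi)
        have h3 := hA1 i (mem_of_mem_erase hi)
        have h4 : A i ≠ A i0 := by
          intro h5
          have h6 := hA2 i (mem_of_mem_erase hi)
          rw [h5, hA2 i0 hi0] at h6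
          exact ne_of_mem_erase hi h6.symm
        omega
  have hsum := sum_le_sum_of_subset (f := fun t => du V (S t)) hsub
  have hs1 : s ∉ (G.erase i0).image A := by
    intro h2
    obtain ⟨i, hi, h3⟩ := mem_image.1 h2
    have := hA1 i (mem_of_mem_erase hi)
    omega
  have hb4 : b ∉ insert s ((G.erase i0).image A) := by
    intro h2
    rcases mem_insert.1 h2 with h3 | h3
    · omega
    · obtain ⟨i, hi, h4⟩ := mem_image.1 h3
      have := hA1 i (mem_of_mem_erase hi)
      omega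
  rw [sum_insert hb4, sum_insert hs1, sum_image hAinj] at hsum
  have h5 : ∑ i ∈ G.erase i0, du V (S (A i)) = ∑ i ∈ G.erase i0, du V i :=
    sum_congr rfl fun i hi => by rw [hA2 i (mem_of_mem_erase hi)]
  rw [h5, hb2, hsj] at hsum
  have h6 := add_sum_erase G (fun i => du V i) hi0
  omega

end Pool.Agent.X245.DP
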