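import Pool.Agent.X245.DP.Main
import Pool.Agent.H671R2.PolyAuto
import Pool.Agent.X249.Kit

/-!
# The criterion is decidable in polynomial time
-/

namespace Pool.Agent.X245.DP

open Pool.Agent.NPC

set_option autoImplicit false

/-- test of the criterion -/
def critB (V : List (ℕ × ℕ)) : Bool :=
  (List.range V.length).all fun j => !decide (fr V 0 < fr V j) ||
    decide ((((List.range V.length).filter fun i => decide (fr V i = fr V 0)).map fun i =>
      du V i).sum + du V j ≤ fr V 0)

/-- test of the instance -/
def instB (V : List (ℕ × ℕ)) : Bool :=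
  !V.isEmpty && ((V.all fun x => decide (0 < x.1) && decide (0 < x.2)) &&
    ((List.range (V.tail).length).all fun i => decide (fr V i ≤ fr V (i + 1))))

/-- test of divisibility -/
def divB (V : List (ℕ × ℕ)) : Bool :=
  (List.range (V.tail).length).all fun i => decide (fr V (i + 1) % fr V i = 0)

/-- test of the density -/
def densB (V : List (ℕ × ℕ)) : Bool :=
  decide (2 * (((List.range V.length).map fun i => du V i *
    (fr V (V.length - 1) / fr V i)).sum) ≤ fr V (V.length - 1))

theorem sum_list (n : ℕ) (f : ℕ → ℕ) : ((List.range n).map f).sum = ∑ i ∈ Finset.range n, f i := by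
  induction n with
  | zero => rfl
  | succ n ih => rw [List.range_succ, List.map_append, List.sum_append, ih,
      Finset.sum_range_succ]; simp

theorem critB_iff (V : List (ℕ × ℕ)) : critB V = true ↔ Crit V := by
  unfold critB Crit
  rw [List.all_eq_true]
  have h1 : ((((List.range V.length).filter fun i => decide (fr V i = fr V 0)).map fun i =>
      du V i).sum) = ∑ i ∈ (Finset.range V.length).filter (fun i => fr V i = fr V 0), du V i := by
    rw [Finset.sum_filter, ← sum_list]
    induction List.range V.length with
    | nil => rfl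
    | cons x l ih =>
      by_cases h : fr V x = fr V 0
      · rw [List.filter_cons_of_pos (by simpa using h), List.map_cons, List.map_cons,
          List.sum_cons, List.sum_cons, ih, if_pos h]
      · rw [List.filter_cons_of_neg (by simpa using h), List.map_cons, List.sum_cons, ih,
          if_neg h, zero_add]
  rw [h1]
  simp only [List.mem_range, Bool.or_eq_true, Bool.not_eq_true', decide_eq_false_iff_not,
    decide_eq_true_eq, ← imp_iff_not_or]

theorem instB_iff (V : List (ℕ × ℕ)) : instB V = true ↔ Inst V := by
  unfold instB Inst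
  simp only [Bool.and_eq_true, Bool.not_eq_true', List.isEmpty_eq_false_iff, List.all_eq_true,
    decide_eq_true_eq, List.mem_range]
  refine and_congr_right fun _ => and_congr_right fun _ => ?_
  rw [List.length_tail]
  constructor
  · intro h
    rw [List.pairwise_iff_getElem]
    intro i j hi hj hij
    have key : ∀ d, i + d < V.length → fr V i ≤ fr V (i + d) := by
      intro d
      induction d with
      | zero => intro _; exact le_rfl
      | succ d ih =>
        intro hd
        exact (ih (by omega)).trans (h (i + d) (by omega))
    have h1 := key (j - i) (by omega)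
    rw [show i + (j - i) = j by omega] at h1
    unfold fr at h1
    rwa [List.getD_eq_getElem _ _ hi, List.getD_eq_getElem _ _ hj] at h1
  · intro h i hi
    rw [List.pairwise_iff_getElem] at h
    have h1 := h i (i + 1) (by omega) (by omega) (by omega)
    unfold fr
    rwa [List.getD_eq_getElem _ _ (by omega), List.getD_eq_getElem _ _ (by omega)]

theorem divB_iff (V : List (ℕ × ℕ)) : divB V = true ↔ Divis V := by
  unfold divB Divis
  simp only [List.all_eq_true, decide_eq_true_eq, List.mem_range, List.length_tail,
    ← Nat.dvd_iff_mod_eq_zero]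
  constructor
  · intro h i hi; exact h i (by omega)
  · intro h i hi; exact h i (by omega)

theorem densB_iff {V : List (ℕ × ℕ)} (hV : Inst V) (hD : Divis V) :
    densB V = true ↔ density V ≤ 1 / 2 := by
  have hn0 : 0 < V.length := List.length_pos_iff.2 hV.1
  unfold densB
  rw [decide_eq_true_eq, sum_list]
  have hL := (fr_pos hV (i := V.length - 1) (by omega)).1
  set L := fr V (V.length - 1) with hLd
  have h1 : ((∑ i ∈ Finset.range V.length, du V i * (L / fr V i) : ℕ) : ℚ) = L * density V := by
    unfold density
    push_cast
    rw [Finset.mul_sum]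
    refine Finset.sum_congr rfl fun i hi => ?_
    have hi := Finset.mem_range.1 hi
    have h2 : fr V i ∣ L := fr_dvd hD (by omega) (by omega)
    have h3 : ((fr V i : ℕ) : ℚ) ≠ 0 := by exact_mod_cast (fr_pos hV hi).1.ne'
    rw [Nat.cast_div h2 h3]
    field_simp
  have h2 : (0 : ℚ) < L := by exact_mod_cast hL
  rw [← Nat.cast_le (α := ℚ), Nat.cast_mul, h1]
  constructor
  · intro h
    have h3 : (L : ℚ) * (2 * density V) ≤ L * 1 := by
      calc (L : ℚ) * (2 * density V) = ((2 : ℕ) : ℚ) * (L * density V) := by push_cast; ring
        _ ≤ L := h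
        _ = L * 1 := (mul_one _).symm
    have h4 := le_of_mul_le_mul_left h3 h2
    linarith
  · intro h
    calc ((2 : ℕ) : ℚ) * (L * density V) = L * (2 * density V) := by push_cast; ring
      _ ≤ L * 1 := mul_le_mul_of_nonneg_left (by linarith) h2.le
      _ = L := mul_one _

section poly

variable {α : Type} [TEnc α]

theorem poly_fr {V : α → List (ℕ × ℕ)} {i : α → ℕ} (hV : NPC.Poly V) (hi : NPC.Poly i) :
    NPC.Poly (fun x => fr (V x) (i x)) := by
  unfold fr
  fun_prop

theorem poly_du {V : α → List (ℕ × ℕ)} {i : α → ℕ} (hV : NPC.Poly V) (hi : NPC.Poly i) :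
    NPC.Poly (fun x => du (V x) (i x)) := by
  unfold du
  fun_prop

attribute [local fun_prop] poly_fr poly_du Poly.range_length

theorem poly_critB : NPC.Poly critB := by
  unfold critB
  fun_prop

theorem poly_instB : NPC.Poly instB := by
  unfold instB
  fun_prop

theorem poly_divB : NPC.Poly divB := by
  unfold divB
  fun_prop

theorem poly_densB : NPC.Poly densB := by
  unfold densB
  fun_prop

end poly

/-- **The problem is in P.** -/
theorem inPP_feasible :
    InPP (fun V => (Inst V ∧ Divis V ∧ density V ≤ 1 / 2) ∧ Feasible V) := by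
  refine inPP_of (d := fun V => (instB V && (divB V && densB V)) && critB V)
    (NPC.Poly.and (NPC.Poly.and poly_instB (NPC.Poly.and poly_divB poly_densB)) poly_critB) ?_
  intro V
  rw [Bool.and_eq_true, Bool.and_eq_true, Bool.and_eq_true, instB_iff, divB_iff, critB_iff]
  constructor
  · rintro ⟨⟨h1, h2, h3⟩, h4⟩
    exact ⟨⟨h1, h2, (densB_iff h1 h2).2 h3⟩, (feasible_iff h1 h2 h3).1 h4⟩
  · rintro ⟨⟨h1, h2, h3⟩, h4⟩
    have h5 := (densB_iff h1 h2).1 h3
    exact ⟨⟨h1, h2, h5⟩, (feasible_iff h1 h2 h5).2 h4⟩

/-- **The problem without the promise.** -/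
theorem inPP_crit : InPP Crit := inPP_of poly_critB fun V => (critB_iff V).symm

end Pool.Agent.X245.DP
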